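import Pool.Agent.Helper61.ZD.Defs

/-!
# BEZ: elimination of one variable
-/

set_option autoImplicit false

namespace Pool.ZD

open MvPolynomial

namespace BEZ

open Polynomial in
/-- Coprimality over the field of fractions gives an elimination over the ring. -/
theorem bez_aux {A : Type} [CommRing A] [IsDomain A] [UniqueFactorizationMonoid A]
    (Q G : Polynomial A) (hQ : Irreducible Q) (hd : Q.natDegree ≠ 0) (hG : ¬ Q ∣ G) :
    ∃ (u v : Polynomial A) (r : A), r ≠ 0 ∧ u * Q + v * G = Polynomial.C r := by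
  classical
  let K := FractionRing A
  have hinj : Function.Injective (algebraMap A K) := IsFractionRing.injective A K
  have hprim : Q.IsPrimitive := hQ.isPrimitive hd
  have hQ' : Irreducible (Q.map (algebraMap A K)) :=
    hprim.irreducible_iff_irreducible_map_fraction_map.1 hQ
  have hclear : ∀ f : Polynomial K, ∃ (b : A) (f₀ : Polynomial A), b ≠ 0 ∧
      f₀.map (algebraMap A K) = Polynomial.C (algebraMap A K b) * f := by
    intro f
    obtain ⟨b, hb, hbf⟩ := IsLocalization.integerNormalization_spec (nonZeroDivisors A) f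
    refine ⟨b, IsLocalization.integerNormalization (nonZeroDivisors A) f,
      nonZeroDivisors.ne_zero hb, ?_⟩
    rw [hbf, Algebra.smul_def, Polynomial.algebraMap_apply]
  have hG' : ¬ Q.map (algebraMap A K) ∣ G.map (algebraMap A K) := by
    rintro ⟨c, hc⟩
    obtain ⟨b, c₀, hb, hbc⟩ := hclear c
    have h1 : Polynomial.C b * G = Q * c₀ := by
      apply Polynomial.map_injective (algebraMap A K) hinj
      rw [Polynomial.map_mul, Polynomial.map_mul, hbc, Polynomial.map_C, hc]
      ring
    have h2 : Q ∣ Polynomial.C b * G := ⟨c₀, h1⟩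
    rcases hQ.prime.dvd_or_dvd h2 with h3 | h3
    · have h4 := Polynomial.natDegree_le_of_dvd h3 (by
        rw [Ne, Polynomial.C_eq_zero]
        exact hb)
      rw [Polynomial.natDegree_C] at h4
      omega
    · exact hG h3
  obtain ⟨a, b, hab⟩ := hQ'.coprime_iff_not_dvd.2 hG'
  obtain ⟨s, a₀, hs, hsa⟩ := hclear a
  obtain ⟨t, b₀, ht, htb⟩ := hclear b
  refine ⟨Polynomial.C t * a₀, Polynomial.C s * b₀, s * t, mul_ne_zero hs ht, ?_⟩
  apply Polynomial.map_injective (algebraMap A K) hinj
  rw [Polynomial.map_add, Polynomial.map_mul, Polynomial.map_mul, Polynomial.map_mul,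
    Polynomial.map_mul, hsa, htb, Polynomial.map_C, Polynomial.map_C, Polynomial.map_C,
    map_mul, Polynomial.C_mul]
  linear_combination (Polynomial.C (algebraMap A K s) * Polynomial.C (algebraMap A K t)) * hab

/-- Isolation of one variable. -/
noncomputable def iso {N : ℕ} (i : Fin N) :
    MvPolynomial (Fin N) ℝ ≃ₐ[ℝ] Polynomial (MvPolynomial {b : Fin N // b ≠ i} ℝ) :=
  (renameEquiv ℝ (Equiv.optionSubtypeNe i).symm).trans (optionEquivLeft ℝ {b : Fin N // b ≠ i})

lemma natDegree_iso {N : ℕ} (i : Fin N) (f : MvPolynomial (Fin N) ℝ) :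
    (iso i f).natDegree = degreeOf i f := by
  rw [degreeOf_eq_natDegree]
  rfl

end BEZ

/-- BEZ. Elimination of one variable. -/
theorem bezout {N : ℕ} (P g : MvPolynomial (Fin N) ℝ) (i : Fin N) (hP : Irreducible P)
    (hi : degreeOf i P ≠ 0) (hg : ¬ P ∣ g) :
    ∃ u v r : MvPolynomial (Fin N) ℝ, r ≠ 0 ∧ degreeOf i r = 0 ∧ u * P + v * g = r := by
  obtain ⟨u, v, r, hr, huv⟩ := BEZ.bez_aux (BEZ.iso i P) (BEZ.iso i g)
    ((MulEquiv.irreducible_iff (BEZ.iso i)).2 hP) (by rwa [BEZ.natDegree_iso]) (by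
      intro h
      apply hg
      exact (map_dvd_iff (BEZ.iso i)).1 h)
  refine ⟨(BEZ.iso i).symm u, (BEZ.iso i).symm v, (BEZ.iso i).symm (Polynomial.C r), ?_, ?_, ?_⟩
  · rw [Ne, EmbeddingLike.map_eq_zero_iff, Polynomial.C_eq_zero]
    exact hr
  · rw [← BEZ.natDegree_iso, AlgEquiv.apply_symm_apply, Polynomial.natDegree_C]
  · rw [← huv, map_add, map_mul, map_mul, AlgEquiv.symm_apply_apply, AlgEquiv.symm_apply_apply]

end Pool.ZD
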