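import Pool.Agent.Helper61.ZD.Defs
import Pool.Agent.Helper49.ZD.BEZ

/-!
# ALG: an indefinite irreducible polynomial divides all polynomials which vanish at its changes
of sign
-/

set_option autoImplicit false

namespace Pool.ZD

open MvPolynomial

namespace ALG

variable {N : ℕ}

/-- The restriction to a line. -/
noncomputable def line (P : MvPolynomial (Fin N) ℝ) (x : Fin N → ℝ) (i : Fin N) : Polynomial ℝ :=
  aeval (Function.update (fun j => Polynomial.C (x j)) i Polynomial.X) P

lemma eval_line (P : MvPolynomial (Fin N) ℝ) (x : Fin N → ℝ) (i : Fin N) (t : ℝ) :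
    (line P x i).eval t = eval (Function.update x i t) P := by
  have h : ((Polynomial.aeval t).comp
      (aeval (Function.update (fun j => Polynomial.C (x j)) i Polynomial.X)) :
        MvPolynomial (Fin N) ℝ →ₐ[ℝ] ℝ) = aeval (Function.update x i t) := by
    refine MvPolynomial.algHom_ext fun j => ?_
    rw [AlgHom.comp_apply, aeval_X, aeval_X]
    by_cases hj : j = i
    · subst hj
      rw [Function.update_self, Function.update_self, Polynomial.aeval_X]
    · rw [Function.update_of_ne hj, Function.update_of_ne hj, Polynomial.aeval_C]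
      rfl
  have h2 := DFunLike.congr_fun h P
  rw [AlgHom.comp_apply] at h2
  rw [line, ← Polynomial.coe_aeval_eq_eval, h2]
  rfl

lemma continuous_eval' (P : MvPolynomial (Fin N) ℝ) : Continuous fun x : Fin N → ℝ => eval x P :=
  MvPolynomial.continuous_eval P

lemma continuous_update (x : Fin N → ℝ) (i : Fin N) :
    Continuous fun t : ℝ => Function.update x i t :=
  continuous_const.update i continuous_id

/-- Sign changes along an edge. -/
def Edge (P : MvPolynomial (Fin N) ℝ) : Prop :=
  ∃ (x : Fin N → ℝ) (i : Fin N) (s t : ℝ), 0 < eval (Function.update x i s) P ∧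
    eval (Function.update x i t) P < 0

theorem exists_edge (P : MvPolynomial (Fin N) ℝ) (h1 : ∃ a : Fin N → ℝ, 0 < eval a P)
    (h2 : ∃ b : Fin N → ℝ, eval b P < 0) : Edge P := by
  classical
  by_contra hE
  have key : ∀ S : Finset (Fin N), ∃ a b : Fin N → ℝ, 0 < eval a P ∧ eval b P < 0 ∧
      ∀ i ∈ S, a i = b i := by
    intro S
    induction S using Finset.induction_on with
    | empty =>
      obtain ⟨a, ha⟩ := h1
      obtain ⟨b, hb⟩ := h2
      exact ⟨a, b, ha, hb, fun i hi => absurd hi (Finset.notMem_empty i)⟩
    | insert j S hj ih =>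
      obtain ⟨a, b, ha, hb, hab⟩ := ih
      -- the values of `t` for which `b` can be moved
      have hU : IsOpen {t : ℝ | eval (Function.update b j t) P < 0} :=
        isOpen_lt ((continuous_eval' P).comp (continuous_update b j)) continuous_const
      have hbU : b j ∈ {t : ℝ | eval (Function.update b j t) P < 0} := by
        change eval (Function.update b j (b j)) P < 0
        rw [Function.update_eq_self]
        exact hb
      by_cases hc : ∃ t ∈ {t : ℝ | eval (Function.update b j t) P < 0},
          0 < eval (Function.update a j t) P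
      · obtain ⟨t, ht, hta⟩ := hc
        refine ⟨Function.update a j t, Function.update b j t, hta, ht, fun i hi => ?_⟩
        rcases eq_or_ne i j with rfl | hij
        · rw [Function.update_self, Function.update_self]
        · rw [Function.update_of_ne hij, Function.update_of_ne hij]
          exact hab i (Finset.mem_of_mem_insert_of_ne hi hij)
      · exfalso
        push Not at hc
        have hz : ∀ t ∈ {t : ℝ | eval (Function.update b j t) P < 0},
            (line P a j).IsRoot t := by
          intro t ht
          rw [Polynomial.IsRoot.def, eval_line]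
          refine le_antisymm (hc t ht) ?_
          by_contra hlt
          rw [not_le] at hlt
          apply hE
          refine ⟨a, j, a j, t, ?_, hlt⟩
          rw [Function.update_eq_self]
          exact ha
        have hinf : Set.Infinite {t : ℝ | eval (Function.update b j t) P < 0} :=
          infinite_of_mem_nhds (b j) (hU.mem_nhds hbU)
        have h0 : line P a j = 0 :=
          Polynomial.eq_zero_of_infinite_isRoot _ (hinf.mono hz)
        have h3 := eval_line P a j (a j)
        rw [h0, Polynomial.eval_zero, Function.update_eq_self] at h3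
        exact absurd h3.symm ha.ne'
  obtain ⟨a, b, ha, hb, hab⟩ := key Finset.univ
  have : a = b := funext fun i => hab i (Finset.mem_univ i)
  rw [this] at ha
  exact absurd ha (not_lt.2 hb.le)

/-- A polynomial of degree zero in one variable does not depend on it. -/
lemma eval_update (r : MvPolynomial (Fin N) ℝ) (i : Fin N) (hr : degreeOf i r = 0)
    (x : Fin N → ℝ) (t : ℝ) : eval (Function.update x i t) r = eval x r := by
  have hi : i ∉ r.vars := fun h => mem_vars_iff_degreeOf_ne_zero.1 h hr
  refine MvPolynomial.eval₂Hom_congr' rfl ?_ rfl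
  intro j hj _
  rw [Function.update_of_ne]
  rintro rfl
  exact hi hj

/-- A real polynomial which takes both signs changes its sign somewhere. -/
theorem exists_change (q : Polynomial ℝ) {s t : ℝ} (hs : 0 < q.eval s) (ht : q.eval t < 0) :
    ∃ τ : ℝ, q.eval τ = 0 ∧ ∀ δ > 0, (∃ u : ℝ, |u - τ| < δ ∧ 0 < q.eval u) ∧
      ∃ v : ℝ, |v - τ| < δ ∧ q.eval v < 0 := by
  have hq0 : q ≠ 0 := by
    rintro rfl
    rw [Polynomial.eval_zero] at hs
    exact lt_irrefl _ hs
  have hfin : {x : ℝ | q.IsRoot x}.Finite := Polynomial.finite_setOfPred_isRoot hq0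
  have hd : Dense {x : ℝ | q.IsRoot x}ᶜ := hfin.countable.dense_compl ℝ
  have hcov : (Set.univ : Set ℝ) ⊆ closure {x | 0 < q.eval x} ∪ closure {x | q.eval x < 0} := by
    rw [← closure_union]
    intro x _
    have h1 := hd x
    refine closure_mono ?_ h1
    intro y hy
    rw [Set.mem_compl_iff, Set.mem_ofPred_eq, Polynomial.IsRoot.def] at hy
    rcases lt_or_gt_of_ne hy with h | h
    · exact Or.inr h
    · exact Or.inl h
  obtain ⟨τ, -, hτ1, hτ2⟩ := (isPreconnected_closed_iff.1 (isPreconnected_univ (α := ℝ)))
    (closure {x | 0 < q.eval x}) (closure {x | q.eval x < 0}) isClosed_closure isClosed_closure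
    hcov ⟨s, Set.mem_univ _, subset_closure hs⟩ ⟨t, Set.mem_univ _, subset_closure ht⟩
  refine ⟨τ, ?_, fun δ hδ => ⟨?_, ?_⟩⟩
  · have hle : closure {x | q.eval x < 0} ⊆ {x | q.eval x ≤ 0} :=
      closure_minimal (fun x hx => by
        change q.eval x < 0 at hx
        exact hx.le) (isClosed_le q.continuous continuous_const)
    have hge : closure {x | 0 < q.eval x} ⊆ {x | 0 ≤ q.eval x} :=
      closure_minimal (fun x hx => by
        change 0 < q.eval x at hx
        exact hx.le) (isClosed_le continuous_const q.continuous)
    exact le_antisymm (hle hτ2) (hge hτ1)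
  · obtain ⟨u, hu, hu2⟩ := Metric.mem_closure_iff.1 hτ1 δ hδ
    exact ⟨u, by rw [← Real.dist_eq, dist_comm]; exact hu2, hu⟩
  · obtain ⟨u, hu, hu2⟩ := Metric.mem_closure_iff.1 hτ2 δ hδ
    exact ⟨u, by rw [← Real.dist_eq, dist_comm]; exact hu2, hu⟩

end ALG

open ALG in
/-- ALG. An indefinite irreducible polynomial divides all polynomials which vanish at its changes
of sign. -/
theorem dvd_of_sgn {N : ℕ} (P g : MvPolynomial (Fin N) ℝ) (hP : Irreducible P)
    (h1 : ∃ a : Fin N → ℝ, 0 < eval a P) (h2 : ∃ b : Fin N → ℝ, eval b P < 0)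
    (hg : ∀ y : Fin N → ℝ, IsSgn P y → eval y g = 0) : P ∣ g := by
  classical
  by_contra hnd
  obtain ⟨x, i, s, t, hs, ht⟩ := exists_edge P h1 h2
  have hi : degreeOf i P ≠ 0 := by
    intro h0
    rw [eval_update P i h0] at hs ht
    exact lt_asymm hs ht
  obtain ⟨u, v, r, hr, hri, huv⟩ := bezout P g i hP hi hnd
  -- the open set of the lines with a change of sign
  have hO : IsOpen {y : Fin N → ℝ | 0 < eval (Function.update y i s) P ∧
      eval (Function.update y i t) P < 0} := by
    refine IsOpen.inter ?_ ?_
    · exact isOpen_lt continuous_const ((continuous_eval' P).comp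
        (continuous_id.update i continuous_const))
    · exact isOpen_lt ((continuous_eval' P).comp
        (continuous_id.update i continuous_const)) continuous_const
  have hr0 : ∀ y ∈ {y : Fin N → ℝ | 0 < eval (Function.update y i s) P ∧
      eval (Function.update y i t) P < 0}, eval y r = 0 := by
    rintro y ⟨hy1, hy2⟩
    rw [← eval_line] at hy1 hy2
    obtain ⟨τ, hτ0, hτ⟩ := exists_change (line P y i) hy1 hy2
    have hclose : ∀ δ > 0, ∀ w : ℝ, |w - τ| < δ → ∀ j,
        |Function.update y i w j - Function.update y i τ j| < δ := by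
      intro δ hδ w hw j
      rcases eq_or_ne j i with rfl | hj
      · rw [Function.update_self, Function.update_self]
        exact hw
      · rw [Function.update_of_ne hj, Function.update_of_ne hj, sub_self, abs_zero]
        exact hδ
    have hsgn : IsSgn P (Function.update y i τ) := by
      intro δ hδ
      obtain ⟨⟨w, hw, hw2⟩, ⟨w', hw', hw2'⟩⟩ := hτ δ hδ
      rw [eval_line] at hw2 hw2'
      exact ⟨⟨_, hclose δ hδ w hw, hw2⟩, ⟨_, hclose δ hδ w' hw', hw2'⟩⟩
    have hgz := hg _ hsgn
    rw [eval_line] at hτ0
    have h3 := congrArg (eval (Function.update y i τ)) huv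
    rw [map_add, map_mul, map_mul, hτ0, hgz, mul_zero, mul_zero, add_zero,
      eval_update r i hri] at h3
    exact h3.symm
  apply hr
  obtain ⟨ε, hε, hball⟩ := Metric.isOpen_iff.1 hO x ⟨hs, ht⟩
  refine MvPolynomial.funext_set (fun j => Metric.ball (x j) ε) (fun j => ?_) ?_
  · rw [Real.ball_eq_Ioo]
    exact Set.Ioo_infinite (by linarith)
  · intro y hy
    rw [map_zero]
    refine hr0 y (hball ?_)
    rw [Metric.mem_ball, dist_pi_lt_iff hε]
    intro j
    exact hy j (Set.mem_univ j)

end Pool.ZD
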