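import Mathlib

/-!
# LAT: few lattice points near a compact null set
-/

set_option autoImplicit false

namespace Pool.ZD

open MeasureTheory

/-- LAT. Few lattice points near a compact null set. -/
theorem lattice {ι : Type} [Fintype ι] (A : Set (ι → ℝ)) (hA : IsCompact A)
    (h0 : MeasureTheory.volume A = 0) (ε : ℝ) (hε : 0 < ε) :
    ∃ δ : ℝ, 0 < δ ∧ ∃ H₀ : ℕ, ∀ H : ℕ, H₀ ≤ H → ∀ S : Finset (ι → ℤ),
      (∀ z ∈ S, (fun i => (z i : ℝ) / H) ∈ Metric.thickening δ A) →
      (S.card : ℝ) ≤ ε * (2 * H + 1) ^ Fintype.card ι := by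
  classical
  have hlim := tendsto_measure_cthickening_of_isCompact (μ := (volume : Measure (ι → ℝ))) hA
  rw [h0] at hlim
  have hev : ∀ᶠ r in nhds (0 : ℝ), volume (Metric.cthickening r A) < ENNReal.ofReal ε :=
    hlim.eventually (gt_mem_nhds (ENNReal.ofReal_pos.2 hε))
  obtain ⟨r, hr, hr2⟩ := Metric.eventually_nhds_iff.1 hev
  have hvol : volume (Metric.cthickening (r / 2) A) < ENNReal.ofReal ε := by
    apply hr2
    rw [Real.dist_eq, sub_zero, abs_of_pos (by linarith)]
    linarith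
  refine ⟨r / 4, by linarith, ⌈4 / r⌉₊ + 1, fun H hH S hS => ?_⟩
  have hH0 : 0 < (H : ℝ) := by
    have : 0 < H := by omega
    exact_mod_cast this
  have hHr : 1 / (H : ℝ) ≤ r / 4 := by
    have h1 : 4 / r ≤ H := by
      refine (Nat.le_ceil _).trans ?_
      exact_mod_cast (by omega : ⌈4 / r⌉₊ ≤ H)
    rw [div_le_div_iff₀ hH0 (by norm_num)]
    rw [div_le_iff₀ hr] at h1
    linarith
  let Q : (ι → ℤ) → Set (ι → ℝ) := fun z =>
    Set.pi Set.univ fun i => Set.Ico ((z i : ℝ) / H) (((z i : ℝ) + 1) / H)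
  have hQvol : ∀ z, volume (Q z) = ENNReal.ofReal (1 / H) ^ Fintype.card ι := by
    intro z
    rw [Real.volume_pi_Ico]
    have h1 : ∀ i ∈ (Finset.univ : Finset ι),
        ENNReal.ofReal (((z i : ℝ) + 1) / H - (z i : ℝ) / H) = ENNReal.ofReal (1 / H) := by
      intro i _
      congr 1
      ring
    rw [Finset.prod_congr rfl h1, Finset.prod_const, Finset.card_univ]
  have hQmem : ∀ z y, y ∈ Q z → ∀ i, ⌊(H : ℝ) * y i⌋ = z i := by
    intro z y hy i
    obtain ⟨h1, h2⟩ := hy i (Set.mem_univ i)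
    rw [div_le_iff₀ hH0] at h1
    rw [lt_div_iff₀ hH0] at h2
    rw [Int.floor_eq_iff]
    constructor <;> linarith
  have hdisj : Set.PairwiseDisjoint (S : Set (ι → ℤ)) Q := by
    intro z _ z' _ hzz
    rw [Function.onFun, Set.disjoint_left]
    intro y hy hy'
    apply hzz
    funext i
    rw [← hQmem z y hy i, hQmem z' y hy' i]
  have hsub : ⋃ z ∈ S, Q z ⊆ Metric.cthickening (r / 2) A := by
    intro y hy
    obtain ⟨z, hz, hy⟩ := Set.mem_iUnion₂.1 hy
    obtain ⟨a, ha, hza⟩ := Metric.mem_thickening_iff.1 (hS z hz)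
    have h1 : dist y (fun i => (z i : ℝ) / H) ≤ 1 / H := by
      rw [dist_pi_le_iff (by positivity)]
      intro i
      obtain ⟨h1, h2⟩ := hy i (Set.mem_univ i)
      rw [Real.dist_eq, abs_of_nonneg (by linarith)]
      have h3 : ((z i : ℝ) + 1) / H = (z i : ℝ) / H + 1 / H := by ring
      linarith
    refine Metric.mem_cthickening_of_dist_le y a (r / 2) A ha ?_
    have h2 := dist_triangle y (fun i => (z i : ℝ) / H) a
    linarith
  have hmeas : ∀ z ∈ S, MeasurableSet (Q z) := fun z _ =>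
    MeasurableSet.univ_pi fun i => measurableSet_Ico
  have h3 : (S.card : ENNReal) * ENNReal.ofReal (1 / H) ^ Fintype.card ι ≤ ENNReal.ofReal ε := by
    have h4 := measure_biUnion_finset (μ := (volume : Measure (ι → ℝ))) hdisj hmeas
    rw [Finset.sum_congr rfl fun z _ => hQvol z, Finset.sum_const, nsmul_eq_mul] at h4
    rw [← h4]
    exact (measure_mono hsub).trans hvol.le
  have h5 : (S.card : ℝ) * (1 / H) ^ Fintype.card ι ≤ ε := by
    rw [← ENNReal.ofReal_natCast, ← ENNReal.ofReal_pow (by positivity),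
      ← ENNReal.ofReal_mul (by positivity)] at h3
    exact (ENNReal.ofReal_le_ofReal_iff hε.le).1 h3
  have h6 : (S.card : ℝ) ≤ ε * (H : ℝ) ^ Fintype.card ι := by
    rw [one_div, inv_pow, ← div_eq_mul_inv, div_le_iff₀ (by positivity)] at h5
    exact h5
  refine h6.trans (mul_le_mul_of_nonneg_left ?_ hε.le)
  exact pow_le_pow_left₀ hH0.le (by linarith) _

end Pool.ZD
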