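import Pool.Agent.Helper61.ZD.Defs

/-!
# NUL: the zeros of a real polynomial are a null set
-/

set_option autoImplicit false

namespace Pool.ZD

open MvPolynomial

namespace NUL

variable {ι : Type} [Fintype ι]

lemma eval_mul_homog {f : MvPolynomial ι ℝ} {n : ℕ} (hf : f.IsHomogeneous n) (s : ℝ)
    (y : ι → ℝ) : eval (fun i => s * y i) f = s ^ n * eval y f := by
  rw [eval_eq', eval_eq', Finset.mul_sum]
  refine Finset.sum_congr rfl fun d hd => ?_
  have h1 : d.degree = n := by
    have h2 := hf (mem_support_iff.1 hd)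
    rw [← h2, Finsupp.degree_eq_weight_one]
    rfl
  have h3 : ∏ i, (s * y i) ^ d i = s ^ n * ∏ i, y i ^ d i := by
    rw [← h1, Finsupp.degree_eq_sum, ← Finset.prod_pow_eq_pow_sum, ← Finset.prod_mul_distrib]
    exact Finset.prod_congr rfl fun i _ => mul_pow _ _ _
  rw [h3]
  ring

/-- A direction along which the polynomial never vanishes identically. -/
theorem exists_dir (Φ : MvPolynomial ι ℝ) (hΦ : Φ ≠ 0) :
    ∃ u : ι → ℝ, ∀ x : ι → ℝ, ∃ t : ℝ, eval (fun i => x i + t * u i) Φ ≠ 0 := by
  classical
  set d := Φ.totalDegree with hd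
  have hΨ : homogeneousComponent d Φ ≠ 0 := by
    intro h0
    obtain ⟨m, hm, hmd⟩ := Finset.exists_mem_eq_sup Φ.support (support_nonempty.2 hΦ)
      (fun m => m.sum fun _ e => e)
    have h1 : m.degree = d := by
      rw [hd, totalDegree, hmd]
      rfl
    have h2 := coeff_homogeneousComponent d Φ m
    rw [h0, coeff_zero, if_pos h1] at h2
    exact (mem_support_iff.1 hm) h2.symm
  obtain ⟨u, hu⟩ : ∃ u : ι → ℝ, eval u (homogeneousComponent d Φ) ≠ 0 := by
    by_contra hc
    push Not at hc
    exact hΨ (MvPolynomial.funext fun x => by rw [hc x, map_zero])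
  refine ⟨u, fun x => ?_⟩
  by_contra hc
  push Not at hc
  let F : ℝ → ℝ := fun s => ∑ k ∈ Finset.range (d + 1), s ^ (d - k) *
    eval (fun i => s * x i + u i) (homogeneousComponent k Φ)
  have hF : Continuous F := by
    refine continuous_finsetSum _ fun k _ => ?_
    refine (continuous_pow _).mul ?_
    refine (MvPolynomial.continuous_eval _).comp ?_
    exact continuous_pi fun i => (continuous_id.mul continuous_const).add continuous_const
  have hF0 : ∀ s ∈ ({0}ᶜ : Set ℝ), F s = 0 := by
    intro s hs
    have hs0 : s ≠ 0 := hs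
    have h1 : ∀ k ∈ Finset.range (d + 1), s ^ (d - k) *
        eval (fun i => s * x i + u i) (homogeneousComponent k Φ) =
        s ^ d * eval (fun i => x i + s⁻¹ * u i) (homogeneousComponent k Φ) := by
      intro k hk
      have h2 : (fun i => s * x i + u i) = fun i => s * (x i + s⁻¹ * u i) := by
        funext i
        rw [mul_add, mul_inv_cancel_left₀ hs0]
      rw [h2, eval_mul_homog (homogeneousComponent_isHomogeneous k Φ), ← mul_assoc, ← pow_add,
        Nat.sub_add_cancel (Nat.lt_succ_iff.1 (Finset.mem_range.1 hk))]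
    change ∑ k ∈ Finset.range (d + 1), _ = _
    rw [Finset.sum_congr rfl h1, ← Finset.mul_sum, ← map_sum, sum_homogeneousComponent, hc,
      mul_zero]
  have hF1 : F 0 = 0 := by
    have h1 : (0 : ℝ) ∈ closure ({0}ᶜ : Set ℝ) := dense_compl_singleton (0 : ℝ) 0
    exact closure_minimal (t := {s | F s = 0}) (fun s hs => hF0 s hs)
      (isClosed_eq hF continuous_const) h1
  apply hu
  have h2 : F 0 = eval u (homogeneousComponent d Φ) := by
    change ∑ k ∈ Finset.range (d + 1), _ = _
    rw [Finset.sum_range_succ, Finset.sum_eq_zero, zero_add, Nat.sub_self, pow_zero, one_mul]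
    · congr 1
      simp
    · intro k hk
      rw [Finset.mem_range] at hk
      rw [zero_pow (by omega), zero_mul]
  rw [← h2, hF1]

end NUL

open NUL in
/-- NUL. The zeros of a polynomial are a null set. -/
theorem null_zeros {ι : Type} [Fintype ι] (Φ : MvPolynomial ι ℝ) (hΦ : Φ ≠ 0) :
    MeasureTheory.volume {c : ι → ℝ | eval c Φ = 0} = 0 := by
  classical
  obtain ⟨u, hu⟩ := exists_dir Φ hΦ
  have hcl : IsClosed {c : ι → ℝ | eval c Φ = 0} :=
    isClosed_eq (MvPolynomial.continuous_eval Φ) continuous_const
  have hmeas : MeasurableSet {c : ι → ℝ | eval c Φ = 0}ᶜ := hcl.measurableSet.compl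
  have key := MeasureTheory.ae_mem_of_ae_add_linearMap_mem
    (LinearMap.toSpanSingleton ℝ (ι → ℝ) u) MeasureTheory.volume
    (MeasureTheory.volume : MeasureTheory.Measure (ι → ℝ)) hmeas (fun x => by
      obtain ⟨t₀, ht₀⟩ := hu x
      let q : Polynomial ℝ := aeval (fun i => Polynomial.C (x i) + Polynomial.X *
        Polynomial.C (u i)) Φ
      have hq : ∀ t : ℝ, q.eval t = eval (fun i => x i + t * u i) Φ := by
        intro t
        have h : ((Polynomial.aeval t).comp (aeval (fun i => Polynomial.C (x i) +
            Polynomial.X * Polynomial.C (u i))) : MvPolynomial ι ℝ →ₐ[ℝ] ℝ) =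
            aeval (fun i => x i + t * u i) := by
          refine MvPolynomial.algHom_ext fun j => ?_
          rw [AlgHom.comp_apply, aeval_X, aeval_X]
          simp only [map_add, map_mul, Polynomial.aeval_C, Polynomial.aeval_X]
          rfl
        have h2 := DFunLike.congr_fun h Φ
        rw [AlgHom.comp_apply] at h2
        rw [← Polynomial.coe_aeval_eq_eval, h2]
        rfl
      have hq0 : q ≠ 0 := by
        intro h0
        apply ht₀
        rw [← hq, h0, Polynomial.eval_zero]
      have hfin : {t : ℝ | q.IsRoot t}.Finite := Polynomial.finite_setOfPred_isRoot hq0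
      refine (MeasureTheory.measure_eq_zero_iff_ae_notMem.1
        (hfin.countable.measure_zero MeasureTheory.volume)).mono fun t ht => ?_
      intro h3
      apply ht
      change q.eval t = 0
      rw [hq]
      have h4 : (fun i => x i + t * u i) = x + (LinearMap.toSpanSingleton ℝ (ι → ℝ) u) t := by
        funext i
        rw [LinearMap.toSpanSingleton_apply, Pi.add_apply, Pi.smul_apply, smul_eq_mul]
      rw [h4]
      exact h3)
  rw [MeasureTheory.measure_eq_zero_iff_ae_notMem]
  exact key

end Pool.ZD
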